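import Mathlib

/-! # Douglas-Rachford iterates for two balls -/

set_option autoImplicit false

namespace Pool.Agent.K3h95.DR

open Filter Topology Metric
open scoped RealInnerProductSpace

variable {E : Type*} [NormedAddCommGroup E] [InnerProductSpace ℝ E]

/-- `P` is the nearest-point projection onto `C` -/
def IsNearest (C : Set E) (P : E → E) : Prop :=
  ∀ x, P x ∈ C ∧ ∀ y ∈ C, ‖x - P x‖ ≤ ‖x - y‖

/-- the reflector `2 P - Id` -/
def rfr (P : E → E) (x : E) : E := (2 : ℝ) • P x - x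

/-- the Douglas-Rachford operator `½ (Id + R_B R_A)` -/
noncomputable def dr (PA PB : E → E) (x : E) : E := (1 / 2 : ℝ) • (x + rfr PB (rfr PA x))

lemma var_ineq {C : Set E} (hC : Convex ℝ C) {P : E → E} (hP : IsNearest C P) (x y : E)
    (hy : y ∈ C) : ⟪x - P x, y - P x⟫ ≤ 0 := by
  by_contra hcon
  push Not at hcon
  set p := P x with hp
  have hpC : p ∈ C := (hP x).1
  have key : ∀ t : ℝ, 0 < t → t ≤ 1 → 2 * ⟪x - p, y - p⟫ ≤ t * ‖y - p‖ ^ 2 := by
    intro t ht ht1
    have h1 : p + t • (y - p) ∈ C := by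
      have := hC hpC hy (show (0:ℝ) ≤ 1 - t by linarith) ht.le (by ring)
      have h2 : (1 - t) • p + t • y = p + t • (y - p) := by
        rw [sub_smul, one_smul, smul_sub]
        abel
      rwa [h2] at this
    have h2 := (hP x).2 _ h1
    have h3 : ‖x - p‖ ^ 2 ≤ ‖x - (p + t • (y - p))‖ ^ 2 :=
      pow_le_pow_left₀ (norm_nonneg _) h2 2
    have h4 : x - (p + t • (y - p)) = (x - p) - t • (y - p) := by abel
    rw [h4, norm_sub_sq_real (x - p) (t • (y - p)), inner_smul_right, norm_smul, mul_pow,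
      Real.norm_eq_abs, sq_abs] at h3
    have h5 : t * (2 * ⟪x - p, y - p⟫) ≤ t * (t * ‖y - p‖ ^ 2) := by nlinarith
    exact le_of_mul_le_mul_left h5 ht
  rcases eq_or_ne (‖y - p‖ ^ 2) 0 with h0 | h0
  · have := key 1 one_pos le_rfl
    rw [h0] at this
    linarith
  · have hpos : 0 < ‖y - p‖ ^ 2 := lt_of_le_of_ne (sq_nonneg _) (Ne.symm h0)
    have h1 := key (min 1 (⟪x - p, y - p⟫ / ‖y - p‖ ^ 2)) (lt_min one_pos (div_pos hcon hpos))
      (min_le_left _ _)
    have h2 : min 1 (⟪x - p, y - p⟫ / ‖y - p‖ ^ 2) * ‖y - p‖ ^ 2 ≤ ⟪x - p, y - p⟫ := by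
      calc _ ≤ ⟪x - p, y - p⟫ / ‖y - p‖ ^ 2 * ‖y - p‖ ^ 2 :=
            mul_le_mul_of_nonneg_right (min_le_right _ _) hpos.le
        _ = _ := div_mul_cancel₀ _ h0
    linarith

lemma firm {C : Set E} (hC : Convex ℝ C) {P : E → E} (hP : IsNearest C P) (x y : E) :
    ‖P x - P y‖ ^ 2 ≤ ⟪P x - P y, x - y⟫ := by
  have h1 := var_ineq hC hP x (P y) (hP y).1
  have h2 := var_ineq hC hP y (P x) (hP x).1
  have h3 : ⟪x - P x, P y - P x⟫ + ⟪y - P y, P x - P y⟫ =
      ‖P x - P y‖ ^ 2 - ⟪P x - P y, x - y⟫ := by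
    rw [← real_inner_self_eq_norm_sq]
    simp only [inner_sub_left, inner_sub_right]
    rw [real_inner_comm x (P y), real_inner_comm x (P x), real_inner_comm y (P y),
      real_inner_comm y (P x)]
    ring
  linarith

lemma rfr_nonexp {C : Set E} (hC : Convex ℝ C) {P : E → E} (hP : IsNearest C P) (x y : E) :
    ‖rfr P x - rfr P y‖ ^ 2 ≤ ‖x - y‖ ^ 2 := by
  have h1 := firm hC hP x y
  have h2 : rfr P x - rfr P y = (2 : ℝ) • (P x - P y) - (x - y) := by
    unfold rfr
    rw [smul_sub]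
    abel
  rw [h2, norm_sub_sq_real, inner_smul_left, norm_smul, mul_pow, Real.norm_eq_abs, sq_abs]
  simp only [conj_trivial]
  linarith

/-- `T` is firmly nonexpansive -/
lemma dr_firm {A B : Set E} (hA : Convex ℝ A) (hB : Convex ℝ B) {PA PB : E → E}
    (hPA : IsNearest A PA) (hPB : IsNearest B PB) (x y : E) :
    ‖dr PA PB x - dr PA PB y‖ ^ 2 + ‖(x - dr PA PB x) - (y - dr PA PB y)‖ ^ 2 ≤ ‖x - y‖ ^ 2 := by
  have h1 := (rfr_nonexp hB hPB (rfr PA x) (rfr PA y)).trans (rfr_nonexp hA hPA x y)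
  set u := rfr PB (rfr PA x) with hu
  set w := rfr PB (rfr PA y) with hw
  have e1 : dr PA PB x - dr PA PB y = (1 / 2 : ℝ) • ((x - y) + (u - w)) := by
    unfold dr
    rw [← hu, ← hw, ← smul_sub]
    congr 1
    abel
  have e2 : (x - dr PA PB x) - (y - dr PA PB y) = (1 / 2 : ℝ) • ((x - y) - (u - w)) := by
    unfold dr
    rw [← hu, ← hw]
    module
  rw [e1, e2, norm_smul, norm_smul, mul_pow, mul_pow, Real.norm_eq_abs, sq_abs,
    norm_add_sq_real (x - y) (u - w), norm_sub_sq_real (x - y) (u - w)]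
  linarith

/-- the projection onto a ball moves towards the centre -/
lemma proj_ball {c : E} {ρ : ℝ} {P : E → E} (hP : IsNearest (closedBall c ρ) P) (x : E) :
    (‖x - c‖ ≤ ρ ∧ P x = x) ∨ (ρ < ‖x - c‖ ∧ P x = c + (ρ / ‖x - c‖) • (x - c)) := by
  have hρ : 0 ≤ ρ := by
    have := (hP x).1
    rw [mem_closedBall] at this
    exact dist_nonneg.trans this
  rcases le_or_gt ‖x - c‖ ρ with h | h
  · left
    refine ⟨h, ?_⟩
    have h1 := (hP x).2 x (by rw [mem_closedBall, dist_eq_norm]; exact h)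
    rw [sub_self, norm_zero] at h1
    have h2 := norm_eq_zero.1 (le_antisymm h1 (norm_nonneg _))
    exact (sub_eq_zero.1 h2).symm
  · right
    refine ⟨h, ?_⟩
    set d := ‖x - c‖ with hd
    have hd0 : 0 < d := lt_of_le_of_lt hρ h
    -- the candidate
    have h1 : c + (ρ / d) • (x - c) ∈ closedBall c ρ := by
      rw [mem_closedBall, dist_eq_norm, add_sub_cancel_left, norm_smul, Real.norm_eq_abs,
        abs_of_nonneg (by positivity), ← hd]
      exact le_of_eq (by field_simp)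
    have h2 := (hP x).2 _ h1
    have h3 : ‖x - (c + (ρ / d) • (x - c))‖ = d - ρ := by
      have : x - (c + (ρ / d) • (x - c)) = (1 - ρ / d) • (x - c) := by
        rw [sub_smul, one_smul]
        abel
      rw [this, norm_smul, Real.norm_eq_abs, ← hd, abs_of_nonneg]
      · field_simp
      · rw [sub_nonneg, div_le_one hd0]
        exact h.le
    rw [h3] at h2
    have h4 : ‖P x - c‖ ≤ ρ := by
      have := (hP x).1
      rwa [mem_closedBall, dist_eq_norm] at this
    -- equality in the triangle inequality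
    set y := P x - c with hy
    set z := x - c with hz
    have h5 : x - P x = z - y := by rw [hy, hz]; abel
    rw [h5] at h2
    have h6 : ‖z - y‖ ^ 2 ≤ (d - ρ) ^ 2 := pow_le_pow_left₀ (norm_nonneg _) h2 2
    have h7 : ‖y‖ ^ 2 ≤ ρ ^ 2 := pow_le_pow_left₀ (norm_nonneg _) h4 2
    rw [norm_sub_sq_real, ← hd] at h6
    have h8 : ‖y - (ρ / d) • z‖ ^ 2 ≤ 0 := by
      rw [norm_sub_sq_real, inner_smul_right, norm_smul, mul_pow, Real.norm_eq_abs, sq_abs, ← hd,
        real_inner_comm]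
      have h9 : (ρ / d) ^ 2 * d ^ 2 = ρ ^ 2 := by field_simp
      rw [h9]
      have h10 : 0 ≤ ρ / d := by positivity
      have h11 : ρ / d ≤ 1 := by rw [div_le_one hd0]; exact h.le
      have h12 : ρ / d * (2 * ⟪z, y⟫) ≥ ρ / d * (2 * d * ρ - ρ ^ 2 + ‖y‖ ^ 2) :=
        mul_le_mul_of_nonneg_left (by linarith) h10
      have h13 : ρ / d * (2 * d * ρ) = 2 * ρ ^ 2 := by field_simp
      nlinarith
    have h9 : y - (ρ / d) • z = 0 := by
      have := le_antisymm h8 (sq_nonneg _)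
      exact norm_eq_zero.1 (pow_eq_zero_iff (by norm_num) |>.1 this)
    have h10 : P x = y + c := by rw [hy]; abel
    rw [h10, sub_eq_zero.1 h9]
    abel

/-- every affine subspace through the centre is invariant -/
lemma proj_ball' {c : E} {ρ : ℝ} {P : E → E} (hP : IsNearest (closedBall c ρ) P) (x : E) :
    ∃ θ : ℝ, P x = c + θ • (x - c) := by
  rcases proj_ball hP x with ⟨-, h⟩ | ⟨-, h⟩
  · exact ⟨1, by rw [h, one_smul]; abel⟩
  · exact ⟨_, h⟩

lemma rfr_ball {c : E} {ρ : ℝ} {P : E → E} (hP : IsNearest (closedBall c ρ) P) (x : E) :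
    ∃ θ : ℝ, rfr P x = c + θ • (x - c) := by
  obtain ⟨θ, h⟩ := proj_ball' hP x
  refine ⟨2 * θ - 1, ?_⟩
  unfold rfr
  rw [h]
  module

/-- a linear subspace containing `b - a`, translated by `a`, is invariant under `T` -/
lemma dr_mem {a b : E} {r s : ℝ} {PA PB : E → E} (hPA : IsNearest (closedBall a r) PA)
    (hPB : IsNearest (closedBall b s) PB) (S : Submodule ℝ E) (hS : b - a ∈ S) {x : E}
    (hx : x - a ∈ S) : dr PA PB x - a ∈ S := by
  obtain ⟨θ, h1⟩ := rfr_ball hPA x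
  obtain ⟨η, h2⟩ := rfr_ball hPB (rfr PA x)
  have h3 : dr PA PB x - a = (1 / 2 : ℝ) • ((x - a) + ((1 - η) • (b - a) + (η * θ) • (x - a))) := by
    unfold dr
    rw [h2, h1]
    module
  rw [h3]
  exact S.smul_mem _ (S.add_mem hx (S.add_mem (S.smul_mem _ hS) (S.smul_mem _ hx)))

end Pool.Agent.K3h95.DR
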