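import Mathlib
import Pool.Agent.K3h95.DR.Basic

/-! # Convergence arguments -/

set_option autoImplicit false

namespace Pool.Agent.K3h95.DR

open Filter Topology Metric
open scoped RealInnerProductSpace

/-- a real sequence whose squares converge and whose steps tend to zero converges -/
lemma real_conv {c : ℕ → ℝ} {κ : ℝ} (h1 : Tendsto (fun n => c n ^ 2) atTop (𝓝 κ))
    (h2 : Tendsto (fun n => c (n + 1) - c n) atTop (𝓝 0)) : ∃ l, Tendsto c atTop (𝓝 l) := by
  have habs : Tendsto (fun n => |c n|) atTop (𝓝 (√κ)) := by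
    have := h1.sqrt
    simpa [Real.sqrt_sq_eq_abs] using this
  rcases eq_or_lt_of_le (Real.sqrt_nonneg κ) with h0 | h0
  · rw [← h0] at habs
    exact ⟨0, (tendsto_zero_iff_abs_tendsto_zero c).2 habs⟩
  · set s := √κ with hs
    have e1 : ∀ᶠ n in atTop, s / 2 < |c n| := habs.eventually (lt_mem_nhds (by linarith))
    have e2 : ∀ᶠ n in atTop, |c (n + 1) - c n| < s / 2 := by
      have h3 := (tendsto_zero_iff_abs_tendsto_zero _).1 h2
      exact h3.eventually (gt_mem_nhds (by linarith))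
    obtain ⟨N, hN⟩ := eventually_atTop.1 (e1.and e2)
    -- the sign is constant from `N` on
    rcases lt_or_ge 0 (c N) with hpos | hneg
    · have hsign : ∀ m, 0 < c (N + m) := by
        intro m
        induction m with
        | zero => exact hpos
        | succ m ih =>
          have h4 := (hN (N + m) (by omega)).2
          have h5 := (hN (N + m) (by omega)).1
          rw [abs_of_pos ih] at h5
          have h6 := (abs_lt.1 h4).1
          have : c (N + (m + 1)) = c (N + m + 1) := by rw [add_assoc]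
          rw [this]
          linarith
      refine ⟨s, habs.congr' ?_⟩
      filter_upwards [eventually_ge_atTop N] with n hn
      obtain ⟨m, rfl⟩ := Nat.exists_eq_add_of_le hn
      exact abs_of_pos (hsign m)
    · have hsign : ∀ m, c (N + m) < 0 := by
        intro m
        induction m with
        | zero =>
          have h5 := (hN N le_rfl).1
          rcases eq_or_lt_of_le hneg with h | h
          · rw [h, abs_zero] at h5
            linarith
          · simpa using h
        | succ m ih =>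
          have h4 := (hN (N + m) (by omega)).2
          have h5 := (hN (N + m) (by omega)).1
          rw [abs_of_neg ih] at h5
          have h6 := (abs_lt.1 h4).2
          have : c (N + (m + 1)) = c (N + m + 1) := by rw [add_assoc]
          rw [this]
          linarith
      refine ⟨-s, habs.neg.congr' ?_⟩
      filter_upwards [eventually_ge_atTop N] with n hn
      obtain ⟨m, rfl⟩ := Nat.exists_eq_add_of_le hn
      rw [abs_of_neg (hsign m), neg_neg]

variable {E : Type*} [NormedAddCommGroup E] [InnerProductSpace ℝ E]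

lemma antitone_conv {d : ℕ → ℝ} (h0 : ∀ n, 0 ≤ d n) (h : Antitone d) : ∃ l, Tendsto d atTop (𝓝 l) :=
  ⟨_, tendsto_atTop_ciInf h ⟨0, by rintro _ ⟨n, rfl⟩; exact h0 n⟩⟩

/-- the planar argument -/
theorem planar_conv {y : ℕ → E} {a e w₀ : E} (he : ‖e‖ = 1) (r : ℝ)
    (h1 : ∀ t, r ≤ t → Antitone fun n => ‖y n - (a + t • e)‖ ^ 2)
    (h2 : ∀ n, ‖y (n + 1) - y n‖ ^ 2 ≤ ‖y n - (a + r • e)‖ ^ 2 - ‖y (n + 1) - (a + r • e)‖ ^ 2)
    (h3 : ∀ n, ∃ c : ℝ, y n - a - ⟪y n - a, e⟫ • e = c • w₀) :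
    ∃ l, Tendsto y atTop (𝓝 l) := by
  obtain ⟨l1, hl1⟩ := antitone_conv (fun n => sq_nonneg _) (h1 r le_rfl)
  obtain ⟨l2, hl2⟩ := antitone_conv (fun n => sq_nonneg _) (h1 (r + 1) (by linarith))
  have hexp : ∀ (t : ℝ) (n : ℕ), ‖y n - (a + t • e)‖ ^ 2 =
      ‖y n - a‖ ^ 2 - 2 * t * ⟪y n - a, e⟫ + t ^ 2 := by
    intro t n
    have : y n - (a + t • e) = (y n - a) - t • e := by abel
    rw [this, norm_sub_sq_real (y n - a) (t • e), inner_smul_right, norm_smul, mul_pow,
      Real.norm_eq_abs, sq_abs, he]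
    ring
  -- the axial component converges
  have hu : ∃ u, Tendsto (fun n => ⟪y n - a, e⟫) atTop (𝓝 u) := by
    refine ⟨(l1 - l2 + ((r + 1) ^ 2 - r ^ 2)) / 2, ?_⟩
    have h4 := (((hl1.sub hl2).add_const ((r + 1) ^ 2 - r ^ 2)).div_const 2)
    refine h4.congr fun n => ?_
    simp only [hexp]
    ring
  obtain ⟨u, hu⟩ := hu
  -- the distance to `a` converges
  have hq : Tendsto (fun n => ‖y n - a‖ ^ 2) atTop (𝓝 (l1 + 2 * r * u - r ^ 2)) := by
    have h4 := (hl1.add (hu.const_mul (2 * r))).sub_const (r ^ 2)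
    refine h4.congr fun n => ?_
    simp only [hexp]
    ring
  -- the steps tend to zero
  have hstep : Tendsto (fun n => ‖y (n + 1) - y n‖ ^ 2) atTop (𝓝 0) := by
    have h4 : Tendsto (fun n => ‖y n - (a + r • e)‖ ^ 2 - ‖y (n + 1) - (a + r • e)‖ ^ 2) atTop (𝓝 0) := by
      have h5 := (tendsto_add_atTop_iff_nat 1).2 hl1
      have h6 := hl1.sub h5
      rwa [sub_self] at h6
    exact squeeze_zero (fun n => sq_nonneg _) h2 h4
  have hstep' : Tendsto (fun n => y (n + 1) - y n) atTop (𝓝 0) := by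
    rw [tendsto_zero_iff_norm_tendsto_zero]
    have := hstep.sqrt
    simpa [Real.sqrt_sq (norm_nonneg _)] using this
  choose c hc using h3
  set w : ℕ → E := fun n => y n - a - ⟪y n - a, e⟫ • e with hw
  have hwstep : Tendsto (fun n => w (n + 1) - w n) atTop (𝓝 0) := by
    have h4 : ∀ n, w (n + 1) - w n = (y (n + 1) - y n) - ⟪y (n + 1) - y n, e⟫ • e := by
      intro n
      simp only [hw]
      have : ⟪y (n + 1) - y n, e⟫ = ⟪y (n + 1) - a, e⟫ - ⟪y n - a, e⟫ := by
        rw [← inner_sub_left]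
        congr 1
        abel
      rw [this, sub_smul]
      abel
    have h5 : Tendsto (fun n => (y (n + 1) - y n) - ⟪y (n + 1) - y n, e⟫ • e) atTop
        (𝓝 ((0 : E) - ⟪(0 : E), e⟫ • e)) :=
      hstep'.sub ((hstep'.inner tendsto_const_nhds).smul_const e)
    rw [inner_zero_left, zero_smul, sub_zero] at h5
    exact h5.congr fun n => (h4 n).symm
  -- the transversal coordinate
  set c' : ℕ → ℝ := fun n => c n * ‖w₀‖ with hc'
  have hwc : ∀ n, w n = c' n • (‖w₀‖⁻¹ • w₀) := by
    intro n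
    simp only [hc']
    rcases eq_or_ne w₀ 0 with h0 | h0
    · rw [hw]
      simp only
      rw [hc n, h0]
      simp
    · have : ‖w₀‖ ≠ 0 := norm_ne_zero_iff.2 h0
      rw [smul_smul, mul_assoc, mul_inv_cancel₀ this, mul_one]
      exact hc n
  have hnormw : ∀ n, c' n ^ 2 = ‖w n‖ ^ 2 := by
    intro n
    simp only [hw, hc']
    rw [hc n, norm_smul, mul_pow, mul_pow, Real.norm_eq_abs, sq_abs]
  have hc2 : Tendsto (fun n => c' n ^ 2) atTop (𝓝 (l1 + 2 * r * u - r ^ 2 - u ^ 2)) := by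
    have h4 := hq.sub (hu.pow 2)
    refine h4.congr fun n => ?_
    rw [hnormw]
    simp only [hw]
    rw [norm_sub_sq_real (y n - a) (⟪y n - a, e⟫ • e), inner_smul_right, norm_smul, mul_pow,
      Real.norm_eq_abs, sq_abs, he]
    ring
  have hcstep : Tendsto (fun n => c' (n + 1) - c' n) atTop (𝓝 0) := by
    rcases eq_or_ne w₀ 0 with h0 | h0
    · have : ∀ n, c' n = 0 := fun n => by simp [hc', h0]
      simp [this]
    · have h4 : ‖(‖w₀‖⁻¹ • w₀)‖ = 1 := by
        rw [norm_smul, norm_inv, norm_norm, inv_mul_cancel₀ (norm_ne_zero_iff.2 h0)]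
      rw [tendsto_zero_iff_abs_tendsto_zero]
      have h5 := tendsto_zero_iff_norm_tendsto_zero.1 hwstep
      refine h5.congr fun n => ?_
      rw [hwc, hwc, ← sub_smul, norm_smul, h4, mul_one]
      rfl
  obtain ⟨l, hl⟩ := real_conv hc2 hcstep
  refine ⟨a + u • e + l • (‖w₀‖⁻¹ • w₀), ?_⟩
  have h4 : Tendsto (fun n => a + ⟪y n - a, e⟫ • e + c' n • (‖w₀‖⁻¹ • w₀)) atTop
      (𝓝 (a + u • e + l • (‖w₀‖⁻¹ • w₀))) :=
    ((tendsto_const_nhds.add (hu.smul_const e))).add (hl.smul_const _)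
  refine h4.congr fun n => ?_
  rw [← hwc]
  simp only [hw]
  abel

/-- a firmly nonexpansive map with a fixed point, along an orbit that stays in a finite-dimensional
subspace -/
theorem fixed_conv {T : E → E}
    (hT : ∀ x y, ‖T x - T y‖ ^ 2 + ‖(x - T x) - (y - T y)‖ ^ 2 ≤ ‖x - y‖ ^ 2)
    {f : E} (hf : T f = f) (a : E) (S : Submodule ℝ E) [FiniteDimensional ℝ S] (x : E)
    (hS : ∀ n : ℕ, T^[n] x - a ∈ S) : ∃ l, Tendsto (fun n : ℕ => T^[n] x) atTop (𝓝 l) := by
  have hne : ∀ x y, ‖T x - T y‖ ≤ ‖x - y‖ := fun x y => by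
    have h1 := hT x y
    have h2 : ‖T x - T y‖ ^ 2 ≤ ‖x - y‖ ^ 2 := by nlinarith [sq_nonneg ‖(x - T x) - (y - T y)‖]
    exact le_of_sq_le_sq h2 (norm_nonneg _)
  have hcont : Continuous T := by
    have : LipschitzWith 1 T := LipschitzWith.of_dist_le_mul fun x y => by
      rw [dist_eq_norm, dist_eq_norm]
      simpa using hne x y
    exact this.continuous
  have hanti : ∀ g : E, T g = g → Antitone fun n : ℕ => ‖T^[n] x - g‖ := by
    intro g hg
    refine antitone_nat_of_succ_le fun n => ?_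
    rw [Function.iterate_succ_apply']
    nth_rewrite 1 [← hg]
    exact hne _ _
  -- asymptotic regularity
  have hstep : Tendsto (fun n : ℕ => T^[n] x - T (T^[n] x)) atTop (𝓝 0) := by
    have h1 : Antitone fun n : ℕ => ‖T^[n] x - f‖ ^ 2 := fun m n h =>
      pow_le_pow_left₀ (norm_nonneg _) (hanti f hf h) 2
    obtain ⟨l, hl⟩ := antitone_conv (fun n => sq_nonneg _) h1
    have h2 : Tendsto (fun n : ℕ => ‖T^[n] x - f‖ ^ 2 - ‖T^[n + 1] x - f‖ ^ 2) atTop (𝓝 0) := by
      have h5 := (tendsto_add_atTop_iff_nat 1).2 hl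
      have h6 := hl.sub h5
      rwa [sub_self] at h6
    have h3 : Tendsto (fun n : ℕ => ‖T^[n] x - T (T^[n] x)‖ ^ 2) atTop (𝓝 0) := by
      refine squeeze_zero (fun n => sq_nonneg _) (fun n => ?_) h2
      have h4 := hT (T^[n] x) f
      rw [hf, sub_self, sub_zero] at h4
      rw [Function.iterate_succ_apply']
      linarith
    rw [tendsto_zero_iff_norm_tendsto_zero]
    have := h3.sqrt
    simpa [Real.sqrt_sq (norm_nonneg _)] using this
  -- a cluster point
  set z : ℕ → S := fun n => ⟨T^[n] x - a, hS n⟩ with hz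
  have hbdd : Bornology.IsBounded (Set.range z) := by
    rw [isBounded_iff_forall_norm_le]
    refine ⟨‖x - f‖ + ‖f - a‖, ?_⟩
    rintro _ ⟨n, rfl⟩
    have h1 := hanti f hf (Nat.zero_le n)
    simp only [Function.iterate_zero, id_eq] at h1
    have h2 : ‖T^[n] x - a‖ ≤ ‖T^[n] x - f‖ + ‖f - a‖ := by
      have := norm_add_le (T^[n] x - f) (f - a)
      rwa [sub_add_sub_cancel] at this
    calc ‖z n‖ = ‖T^[n] x - a‖ := rfl
      _ ≤ _ := by linarith
  have : ProperSpace S := FiniteDimensional.proper ℝ S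
  obtain ⟨z₀, -, φ, hφ, hz₀⟩ := tendsto_subseq_of_bounded hbdd (fun n => Set.mem_range_self n)
  have h1 : Tendsto (fun n => T^[φ n] x) atTop (𝓝 (z₀ + a)) := by
    have h2 : Tendsto (fun n => ((z (φ n) : S) : E)) atTop (𝓝 (z₀ : E)) :=
      (continuous_subtype_val.tendsto z₀).comp hz₀
    refine (h2.add_const a).congr fun n => ?_
    simp [hz]
  set g : E := z₀ + a with hg
  have h2 : T g = g := by
    have h3 : Tendsto (fun n => T^[φ n] x - T (T^[φ n] x)) atTop (𝓝 (g - T g)) :=
      h1.sub ((hcont.tendsto g).comp h1)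
    have h4 : Tendsto (fun n => T^[φ n] x - T (T^[φ n] x)) atTop (𝓝 0) :=
      hstep.comp hφ.tendsto_atTop
    have h5 := tendsto_nhds_unique h3 h4
    exact (sub_eq_zero.1 h5).symm
  refine ⟨g, ?_⟩
  rw [tendsto_iff_norm_sub_tendsto_zero]
  obtain ⟨l, hl⟩ := antitone_conv (fun n => norm_nonneg _) (hanti g h2)
  have h3 : Tendsto (fun n => ‖T^[φ n] x - g‖) atTop (𝓝 0) := by
    rw [← tendsto_iff_norm_sub_tendsto_zero]
    exact h1
  have h4 : Tendsto (fun n => ‖T^[φ n] x - g‖) atTop (𝓝 l) := hl.comp hφ.tendsto_atTop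
  rw [← tendsto_nhds_unique h4 h3]
  exact hl

end Pool.Agent.K3h95.DR
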